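import Pool.Agent.X189.BS.Stm

/-! Lemmas for part E2 of MP_4f027a_co: validity and the vector are invariant under swapping two
adjacent crossings with disjoint labels; validity is invariant under the flip of a triangle. -/

namespace Pool.Agent.X69.BS

open Pool.Agent.X189.BS

variable {n : ℕ}

/-- the condition in `Val` at the crossing `e` after the prefix `P` -/
def Cond (a c : Fin (n + 1)) (P : List (Fin (n + 1) × Fin (n + 1)))
    (e : Fin (n + 1) × Fin (n + 1)) : Prop :=
  a ≤ e.1 ∧ e.1 < e.2 ∧ e.2 ≤ c ∧ e ∉ P ∧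
    (∀ z, e.2 < z → z ≤ c → ((e.2, z) ∈ P ↔ (e.1, z) ∈ P)) ∧
    (∀ z, a ≤ z → z < e.1 → ((z, e.1) ∈ P ↔ (z, e.2) ∈ P)) ∧
    (∀ z, e.1 < z → z < e.2 → ((e.1, z) ∈ P ↔ (z, e.2) ∉ P))

def VA (a c : Fin (n + 1)) : List (Fin (n + 1) × Fin (n + 1)) →
    List (Fin (n + 1) × Fin (n + 1)) → Prop
  | _, [] => True
  | P, e :: S => Cond a c P e ∧ VA a c (P ++ [e]) S

/-- two crossings with no common wire -/
def Disj (e f : Fin (n + 1) × Fin (n + 1)) : Prop :=
  e.1 ≠ f.1 ∧ e.1 ≠ f.2 ∧ e.2 ≠ f.1 ∧ e.2 ≠ f.2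

theorem Disj.symm {e f : Fin (n + 1) × Fin (n + 1)} (h : Disj e f) : Disj f e :=
  ⟨h.1.symm, h.2.2.1.symm, h.2.1.symm, h.2.2.2.symm⟩

theorem cond_congr {a c : Fin (n + 1)} {P P' : List (Fin (n + 1) × Fin (n + 1))}
    (h : ∀ x, x ∈ P ↔ x ∈ P') (e : Fin (n + 1) × Fin (n + 1)) :
    Cond a c P e ↔ Cond a c P' e := by
  unfold Cond
  simp only [h]

theorem va_congr {a c : Fin (n + 1)} (S : List (Fin (n + 1) × Fin (n + 1))) :
    ∀ {P P' : List (Fin (n + 1) × Fin (n + 1))} (_ : ∀ x, x ∈ P ↔ x ∈ P'),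
      (VA a c P S ↔ VA a c P' S) := by
  induction S with
  | nil => intro P P' _; exact Iff.rfl
  | cons e S ih =>
    intro P P' h
    unfold VA
    rw [cond_congr h e, ih (P := P ++ [e]) (P' := P' ++ [e]) (by
      intro x; simp only [List.mem_append, h])]

theorem va_append {a c : Fin (n + 1)} (S T : List (Fin (n + 1) × Fin (n + 1))) :
    ∀ (P : List (Fin (n + 1) × Fin (n + 1))),
      (VA a c P (S ++ T) ↔ VA a c P S ∧ VA a c (P ++ S) T) := by
  induction S with
  | nil => intro P; simp [VA]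
  | cons e S ih =>
    intro P
    simp only [List.cons_append, VA]
    rw [ih (P ++ [e])]
    simp only [List.append_assoc, List.cons_append, List.nil_append, and_assoc]

theorem va_iff {a c : Fin (n + 1)} (L : List (Fin (n + 1) × Fin (n + 1))) :
    ∀ (Q : List (Fin (n + 1) × Fin (n + 1))),
      (VA a c Q L ↔ ∀ P e S, L = P ++ e :: S → Cond a c (Q ++ P) e) := by
  induction L with
  | nil => intro Q; simp [VA]
  | cons f L ih =>
    intro Q
    simp only [VA]
    rw [ih (Q ++ [f])]
    constructor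
    · rintro ⟨h1, h2⟩ P e S hL
      cases P with
      | nil =>
        simp only [List.nil_append, List.cons.injEq] at hL
        rw [List.append_nil, ← hL.1]; exact h1
      | cons g P =>
        simp only [List.cons_append, List.cons.injEq] at hL
        obtain ⟨rfl, hL⟩ := hL
        have := h2 P e S hL
        simpa using this
    · intro h
      refine ⟨by simpa using h [] f L rfl, fun P e S hL => ?_⟩
      have := h (f :: P) e S (by rw [hL]; rfl)
      simpa using this

theorem val_iff {a c : Fin (n + 1)} (L : List (Fin (n + 1) × Fin (n + 1))) :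
    Val a c L ↔ VA a c [] L := by
  rw [va_iff]
  rfl

/-- a disjoint crossing does not matter for the condition -/
theorem cond_disj {a c : Fin (n + 1)} {P : List (Fin (n + 1) × Fin (n + 1))}
    {e f : Fin (n + 1) × Fin (n + 1)} (h : Disj e f) :
    Cond a c (P ++ [e]) f ↔ Cond a c P f := by
  obtain ⟨e1, e2⟩ := e
  obtain ⟨f1, f2⟩ := f
  obtain ⟨h1, h2, h3, h4⟩ := h
  simp only at h1 h2 h3 h4
  unfold Cond
  simp only [List.mem_append, List.mem_singleton, Prod.mk.injEq]
  simp only [h1.symm, h2.symm, h3.symm, h4.symm, false_and, and_false, or_false]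

theorem va_swap {a c : Fin (n + 1)} {P S : List (Fin (n + 1) × Fin (n + 1))}
    {e f : Fin (n + 1) × Fin (n + 1)} (h : Disj e f) (H : VA a c P (e :: f :: S)) :
    VA a c P (f :: e :: S) := by
  simp only [VA] at H ⊢
  obtain ⟨h1, h2, h3⟩ := H
  refine ⟨(cond_disj h).1 h2, (cond_disj h.symm).2 h1, ?_⟩
  refine (va_congr S ?_).1 h3
  intro x
  simp only [List.mem_append, List.mem_singleton]
  tauto

/-- (i) -/
theorem val_swap {a c : Fin (n + 1)} {P S : List (Fin (n + 1) × Fin (n + 1))}
    {e f : Fin (n + 1) × Fin (n + 1)} (h : Disj e f) (H : Val a c (P ++ e :: f :: S)) :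
    Val a c (P ++ f :: e :: S) := by
  rw [val_iff, va_append] at H ⊢
  exact ⟨H.1, va_swap h H.2⟩

/-- moving a crossing to the left over a list of disjoint ones -/
theorem val_left {a c : Fin (n + 1)} {M : List (Fin (n + 1) × Fin (n + 1))}
    {e : Fin (n + 1) × Fin (n + 1)} (h : ∀ f ∈ M, Disj e f) :
    ∀ {P S : List (Fin (n + 1) × Fin (n + 1))}, Val a c (P ++ (M ++ e :: S)) →
      Val a c (P ++ (e :: (M ++ S))) := by
  induction M with
  | nil => intro P S H; exact H
  | cons m M ih =>
    intro P S H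
    have H1 : Val a c ((P ++ [m]) ++ (M ++ e :: S)) := by simpa using H
    have H2 := ih (fun f hf => h f (List.mem_cons_of_mem _ hf)) H1
    have H3 : Val a c (P ++ m :: e :: (M ++ S)) := by simpa using H2
    exact val_swap (h m (List.mem_cons_self ..)).symm H3

/-- moving a crossing to the right over a list of disjoint ones -/
theorem val_right {a c : Fin (n + 1)} {M : List (Fin (n + 1) × Fin (n + 1))}
    {e : Fin (n + 1) × Fin (n + 1)} (h : ∀ f ∈ M, Disj e f) :
    ∀ {P S : List (Fin (n + 1) × Fin (n + 1))}, Val a c (P ++ (e :: (M ++ S))) →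
      Val a c (P ++ (M ++ e :: S)) := by
  induction M with
  | nil => intro P S H; exact H
  | cons m M ih =>
    intro P S H
    have H1 : Val a c (P ++ m :: e :: (M ++ S)) :=
      val_swap (h m (List.mem_cons_self ..)) (by simpa using H)
    have H2 : Val a c ((P ++ [m]) ++ (e :: (M ++ S))) := by simpa using H1
    have H3 := ih (fun f hf => h f (List.mem_cons_of_mem _ hf)) H2
    simpa using H3

theorem vstep_comm (q : ℤ) (X : Fin (n + 1) → ℤ) {e f : Fin (n + 1) × Fin (n + 1)}
    (h : Disj e f) : vstep q (vstep q X e) f = vstep q (vstep q X f) e := by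
  obtain ⟨e1, e2⟩ := e
  obtain ⟨f1, f2⟩ := f
  obtain ⟨h1, h2, h3, h4⟩ := h
  simp only at h1 h2 h3 h4
  funext z
  unfold vstep
  simp only
  by_cases hz : z = e1 ∨ z = e2
  · have hz' : ¬ (z = f1 ∨ z = f2) := by
      rintro (h | h) <;> rcases hz with h' | h' <;> subst h' <;> contradiction
    simp only [hz, hz', if_true, if_false, h1, h2, h3, h4, or_self]
    ring
  · by_cases hz' : z = f1 ∨ z = f2
    · simp only [hz, hz', if_true, if_false, h1.symm, h2.symm, h3.symm, h4.symm, or_self]
      ring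
    · simp only [hz, hz', if_false]

theorem fold_swap (q : ℤ) (X : Fin (n + 1) → ℤ) (P S : List (Fin (n + 1) × Fin (n + 1)))
    {e f : Fin (n + 1) × Fin (n + 1)} (h : Disj e f) :
    (P ++ e :: f :: S).foldl (vstep q) X = (P ++ f :: e :: S).foldl (vstep q) X := by
  simp only [List.foldl_append, List.foldl_cons]
  rw [vstep_comm q _ h]

theorem fold_left (q : ℤ) {M : List (Fin (n + 1) × Fin (n + 1))}
    {e : Fin (n + 1) × Fin (n + 1)} (h : ∀ f ∈ M, Disj e f) :
    ∀ (X : Fin (n + 1) → ℤ) (P S : List (Fin (n + 1) × Fin (n + 1))),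
      (P ++ (M ++ e :: S)).foldl (vstep q) X = (P ++ (e :: (M ++ S))).foldl (vstep q) X := by
  induction M with
  | nil => intro X P S; rfl
  | cons m M ih =>
    intro X P S
    have H1 := ih (fun f hf => h f (List.mem_cons_of_mem _ hf)) X (P ++ [m]) S
    have H2 : (P ++ (m :: M ++ e :: S)).foldl (vstep q) X =
        (P ++ m :: e :: (M ++ S)).foldl (vstep q) X := by simpa using H1
    rw [H2, fold_swap q X P (M ++ S) (h m (List.mem_cons_self ..)).symm]
    rfl

theorem loc_swap (x : Fin (n + 1)) (P S : List (Fin (n + 1) × Fin (n + 1)))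
    {e f : Fin (n + 1) × Fin (n + 1)} (h : Disj e f) :
    loc x (P ++ e :: f :: S) = loc x (P ++ f :: e :: S) := by
  obtain ⟨e1, e2⟩ := e
  obtain ⟨f1, f2⟩ := f
  obtain ⟨h1, h2, h3, h4⟩ := h
  simp only at h1 h2 h3 h4
  unfold loc
  simp only [List.filter_append, List.filter_cons]
  congr 1
  by_cases he : e1 = x ∨ e2 = x
  · have hf : ¬ (f1 = x ∨ f2 = x) := by
      rintro (h | h) <;> rcases he with h' | h' <;> rw [← h] at h' <;> contradiction
    simp [he, hf]
  · simp [he]

theorem loc_left (x : Fin (n + 1)) {M : List (Fin (n + 1) × Fin (n + 1))}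
    {e : Fin (n + 1) × Fin (n + 1)} (h : ∀ f ∈ M, Disj e f) :
    ∀ (P S : List (Fin (n + 1) × Fin (n + 1))),
      loc x (P ++ (M ++ e :: S)) = loc x (P ++ (e :: (M ++ S))) := by
  induction M with
  | nil => intro P S; rfl
  | cons m M ih =>
    intro P S
    have H1 := ih (fun f hf => h f (List.mem_cons_of_mem _ hf)) (P ++ [m]) S
    have H2 : loc x (P ++ (m :: M ++ e :: S)) = loc x (P ++ m :: e :: (M ++ S)) := by
      simpa using H1
    rw [H2, loc_swap x P (M ++ S) (h m (List.mem_cons_self ..)).symm]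
    rfl

/-- (ii) -/
theorem val_flip {a b c : Fin (n + 1)} (hab : a < b) (hbc : b < c)
    {P S : List (Fin (n + 1) × Fin (n + 1))}
    (H : Val a c (P ++ (a, b) :: (a, c) :: (b, c) :: S)) :
    Val a c (P ++ (b, c) :: (a, c) :: (a, b) :: S) := by
  have hac := hab.trans hbc
  rw [val_iff, va_append] at H ⊢
  refine ⟨H.1, ?_⟩
  have H2 := H.2
  simp only [List.nil_append, VA, List.append_assoc, List.cons_append] at H2 ⊢
  obtain ⟨k1, k2, k3, k4⟩ := H2
  unfold Cond at k1 k2 k3 ⊢
  simp only [List.mem_append, List.mem_cons, List.not_mem_nil, or_false, Prod.mk.injEq] at *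
  obtain ⟨-, -, -, k11, k12, k13, k14⟩ := k1
  obtain ⟨-, -, -, k21, k22, k23, k24⟩ := k2
  obtain ⟨-, -, -, k31, k32, k33, k34⟩ := k3
  push Not at k21 k31
  refine ⟨⟨hab.le, hbc, le_refl c, k31.1, ?_, ?_, ?_⟩, ⟨le_refl a, hac, le_refl c, ?_, ?_, ?_, ?_⟩,
    ⟨le_refl a, hab, hbc.le, ?_, ?_, ?_, ?_⟩, ?_⟩
  · intro z h1 h2; exact absurd h1 (not_lt.2 h2)
  · intro z h1 h2
    rcases eq_or_lt_of_le h1 with rfl | h3
    · constructor
      · intro h; exact absurd h k11
      · intro h; exact absurd h k21.1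
    · have := k33 z h1 h2
      have e1 : ¬ z = a := h3.ne'
      simpa [e1] using this
  · intro z h1 h2
    have := k34 z h1 h2
    have e1 : ¬ z = a := (hab.trans h1).ne'
    have e2 : ¬ b = a := hab.ne'
    simpa [e1, e2] using this
  · push Not
    exact ⟨k21.1, fun h => absurd h hab.ne⟩
  · intro z h1 h2; exact absurd h1 (not_lt.2 h2)
  · intro z h1 h2; exact absurd h2 (not_lt.2 h1)
  · intro z h1 h2
    by_cases hz : z = b
    · subst hz
      simp [k11, hab.ne]
    · have := k24 z h1 h2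
      have e2 : ¬ a = b := hab.ne
      have e3 : ¬ c = b := hbc.ne'
      simpa [hz, e2, e3] using this
  · push Not
    exact ⟨k11, fun h => absurd h hab.ne, fun _ => hbc.ne⟩
  · intro z h1 h2
    by_cases hz : z = c
    · subst hz; simp
    · have := k12 z h1 h2
      simpa [hz] using this
  · intro z h1 h2; exact absurd h2 (not_lt.2 h1)
  · intro z h1 h2
    have := k14 z h1 h2
    have e2 : ¬ a = b := hab.ne
    have e3 : ¬ b = c := hbc.ne
    have e4 : ¬ z = c := (h2.trans hbc).ne
    simpa [e2, e3, e4] using this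
  · refine (va_congr S ?_).1 k4
    intro x
    simp only [List.mem_append, List.mem_cons, List.not_mem_nil, or_false]
    tauto

end Pool.Agent.X69.BS
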